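import Pool.Agent.helper6.EV.Spec
import Pool.Agent.helper13.LD.E2

/-!
# ev:LD, bound for the logarithmic derivative in a zero free half plane
-/

set_option autoImplicit false

namespace Pool.Agent.EV

open N1f72dd46 Filter MeasureTheory Complex Metric Pool.Agent.helper6.LD

/-- Borel-Caratheodory and Cauchy -/
theorem LD_aux (g : ℂ → ℂ) (c : ℂ) (R r δ B : ℝ) (hδ : 0 < δ) (hr : 0 ≤ r) (hR : R = r + 2 * δ)
    (hB : 0 < B) (hg : AnalyticOnNhd ℂ g (ball c R)) (h0 : ∀ z ∈ ball c R, g z ≠ 0)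
    (hb : ∀ z ∈ ball c R, ‖g z‖ ≤ Real.exp B * ‖g c‖) (s : ℂ) (hs : ‖s - c‖ ≤ r) :
    ‖deriv g s / g s‖ ≤ 2 * B * (r + δ) / δ / δ := by
  have hR0 : 0 < R := by rw [hR]; linarith
  have hcb : c ∈ ball c R := mem_ball_self hR0
  obtain ⟨h, hhc, hh, hge⟩ := h13_exists_log hR0 hg h0
  have hre : ∀ z ∈ ball c R, (h z).re ≤ B := by
    intro z hz
    have h1 := hb z hz
    rw [hge z hz, norm_mul, Complex.norm_exp, mul_comm (Real.exp B)] at h1
    have h2 : 0 < ‖g c‖ := norm_pos_iff.mpr (h0 c hcb)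
    have h3 := le_of_mul_le_mul_left h1 h2
    exact Real.exp_le_exp.mp h3
  have hsub : closedBall s δ ⊆ ball c R := by
    intro w hw
    rw [mem_closedBall_iff_norm] at hw
    rw [mem_ball_iff_norm]
    have h1 : ‖w - c‖ ≤ ‖w - s‖ + ‖s - c‖ := by
      have : w - c = (w - s) + (s - c) := by ring
      rw [this]
      exact norm_add_le _ _
    rw [hR]
    linarith
  have hcirc : ∀ z ∈ sphere s δ, ‖h z‖ ≤ 2 * B * (r + δ) / δ := by
    intro z hz
    have hz1 : ‖z - s‖ = δ := mem_sphere_iff_norm.mp hz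
    have hz' : ‖z - c‖ ≤ r + δ := by
      have : z - c = (z - s) + (s - c) := by ring
      rw [this]
      exact (norm_add_le _ _).trans (by linarith)
    have hshift : DifferentiableOn ℂ (fun w => h (c + w)) (ball 0 R) := by
      intro w hw
      have : c + w ∈ ball c R := by simpa [mem_ball_iff_norm] using hw
      exact ((hh _ this).comp_const_add c w).differentiableAt.differentiableWithinAt
    have hmap : Set.MapsTo (fun w => h (c + w)) (ball 0 R) {z | z.re ≤ B} := by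
      intro w hw
      have : c + w ∈ ball c R := by simpa [mem_ball_iff_norm] using hw
      exact hre _ this
    have hw : z - c ∈ ball (0 : ℂ) R := by
      rw [mem_ball_zero_iff]; linarith
    have := borelCaratheodory_zero hB hshift hmap hR0 hw (by simp [hhc])
    simp only [add_sub_cancel] at this
    refine this.trans ?_
    rw [div_le_div_iff₀ (by linarith) hδ]
    have h5 : 0 ≤ ‖z - c‖ := norm_nonneg _
    have h6 : δ ≤ R - ‖z - c‖ := by linarith
    calc 2 * B * ‖z - c‖ * δ ≤ 2 * B * (r + δ) * δ := by gcongr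
      _ ≤ 2 * B * (r + δ) * (R - ‖z - c‖) := by gcongr
  have hcl : DiffContOnCl ℂ h (ball s δ) := by
    refine DifferentiableOn.diffContOnCl ?_
    rw [closure_ball _ hδ.ne']
    exact fun z hz => (hh z (hsub hz)).differentiableAt.differentiableWithinAt
  have hcauchy := norm_deriv_le_of_forall_mem_sphere_norm_le hδ hcl hcirc
  have hsb : s ∈ ball c R := hsub (mem_closedBall_self hδ.le)
  rw [(hh s hsb).deriv, logDeriv_apply] at hcauchy
  exact hcauchy

theorem LD (hZT : ZT_stmt) : LD_stmt := by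
  obtain ⟨hd, hne1, h1, ⟨C, hC, hg⟩, hlow⟩ := hZT
  intro θ σ1 hθ hθσ hσ hz
  have hne : ∀ s : ℂ, θ < s.re → Zt s ≠ 0 := by
    intro s hs
    by_cases h : s = 1
    · rw [h, h1]; exact one_ne_zero
    · rw [hne1 s h]; exact mul_ne_zero (sub_ne_zero.2 h) (hz s hs)
  obtain ⟨C', hC'1, hC'⟩ : ∃ C' : ℝ, 1 ≤ C' ∧ C ≤ C' := ⟨max C 1, le_max_right _ _, le_max_left _ _⟩
  obtain ⟨K, hK⟩ : ∃ K : ℝ, K = 4 + Real.log (4 * C') := ⟨_, rfl⟩
  have hlog4 : 0 < Real.log (4 * C') := Real.log_pos (by linarith)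
  have hK0 : 0 < K := by rw [hK]; linarith
  obtain ⟨δ, hδ⟩ : ∃ δ : ℝ, δ = (σ1 - θ) / 2 := ⟨_, rfl⟩
  have hδ0 : 0 < δ := by rw [hδ]; linarith
  refine ⟨2 * K * (2 - σ1 + δ) / δ / δ, by
    have : 0 < 2 - σ1 + δ := by linarith
    positivity, fun s hs1 hs2 => ⟨hne s (by linarith), ?_⟩⟩
  obtain ⟨t, ht⟩ : ∃ t : ℝ, t = s.im := ⟨_, rfl⟩
  obtain ⟨c, hc⟩ : ∃ c : ℂ, c = 2 + t * I := ⟨_, rfl⟩
  have hcre : c.re = 2 := by rw [hc]; simp
  have hcim : c.im = t := by rw [hc]; simp
  have hL1 : 1 ≤ Real.log (3 + |t|) := by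
    rw [Real.le_log_iff_exp_le (by positivity)]
    have := Real.exp_one_lt_d9
    have := abs_nonneg t
    linarith
  obtain ⟨B, hBdef⟩ : ∃ B : ℝ, B = K * Real.log (3 + |t|) := ⟨_, rfl⟩
  have hB0 : 0 < B := by rw [hBdef]; positivity
  have hsc : ‖s - c‖ ≤ 2 - σ1 := by
    have e : s - c = ((s.re - 2 : ℝ) : ℂ) := by
      apply Complex.ext
      · simp [hcre]
      · simp [hcim, ht]
    rw [e, Complex.norm_real, Real.norm_eq_abs, abs_le]
    constructor <;> linarith
  have hball : ∀ z ∈ ball c (2 - θ), θ < z.re := by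
    intro z hz
    rw [mem_ball_iff_norm] at hz
    have h2 := (Complex.abs_re_le_norm (z - c)).trans_lt hz
    rw [Complex.sub_re, hcre, abs_lt] at h2
    linarith [h2.1]
  have key := LD_aux Zt c (2 - θ) (2 - σ1) δ B hδ0 (by linarith) (by rw [hδ]; ring) hB0
    (fun z _ => hd.analyticAt z) (fun z hz => hne z (hball z hz)) ?_ s hsc
  · rw [← ht]
    refine key.trans (le_of_eq ?_)
    rw [hBdef]
    ring
  · intro z hz
    have hz' := hz
    rw [mem_ball_iff_norm] at hz'
    have hcn : ‖c‖ ≤ 2 + |t| := by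
      rw [hc]
      refine (norm_add_le _ _).trans ?_
      simp
    have hzn : ‖z‖ ≤ 4 + |t| := by
      have : z = (z - c) + c := by ring
      rw [this]
      refine (norm_add_le _ _).trans ?_
      linarith
    have hlow' : 1 / 4 ≤ ‖Zt c‖ := by rw [hc]; exact hlow t
    have hx : 0 ≤ |t| := abs_nonneg t
    have h3 : ‖Zt z‖ ≤ C' * (3 + |t|) ^ 4 := by
      refine (hg z (by linarith [hball z hz])).trans ?_
      have h4 : (1 + ‖z‖) ^ 2 ≤ ((3 + |t|) ^ 2) ^ 2 := by
        refine pow_le_pow_left₀ (by positivity) ?_ 2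
        nlinarith
      calc C * (1 + ‖z‖) ^ 2 ≤ C' * ((3 + |t|) ^ 2) ^ 2 :=
            mul_le_mul hC' h4 (by positivity) (by linarith)
        _ = _ := by ring
    have h5 : 4 * C' * (3 + |t|) ^ 4 ≤ Real.exp B := by
      have e1 : Real.exp B = (3 + |t|) ^ 4 * Real.exp (Real.log (4 * C') * Real.log (3 + |t|)) := by
        rw [hBdef, hK, add_mul, Real.exp_add]
        congr 1
        rw [mul_comm, Real.exp_mul, Real.exp_log (by positivity)]
        norm_cast
      have e2 : 4 * C' ≤ Real.exp (Real.log (4 * C') * Real.log (3 + |t|)) := by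
        calc 4 * C' = Real.exp (Real.log (4 * C')) := (Real.exp_log (by linarith)).symm
          _ ≤ _ := Real.exp_le_exp.2 (by nlinarith)
      rw [e1, mul_comm (4 * C')]
      exact mul_le_mul_of_nonneg_left e2 (by positivity)
    have h6 : 0 < Real.exp B := Real.exp_pos _
    calc ‖Zt z‖ ≤ C' * (3 + |t|) ^ 4 := h3
      _ ≤ Real.exp B * (1 / 4) := by linarith
      _ ≤ Real.exp B * ‖Zt c‖ := by gcongr

end Pool.Agent.EV
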